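import Pool.Agent.W555.KS.Defs2

/-!
# KS-BAL (helper636): `StBal0 → StBal`
-/

set_option autoImplicit false

namespace Pool.Agent.W636.KS

open Finset MvPolynomial Pool.Agent.W555.KS

lemma prod_mem_span' {k A ι : Type*} [Field k] [CommRing A] [Algebra k A] [DecidableEq ι]
    (S : Finset ι) (f : ι → A) (M : ι → Set A)
    (h : ∀ i ∈ S, f i ∈ Submodule.span k (M i)) :
    ∏ i ∈ S, f i ∈ Submodule.span k {y | ∃ g : ι → A, (∀ i ∈ S, g i ∈ M i) ∧ y = ∏ i ∈ S, g i} := by
  classical
  induction S using Finset.induction_on with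
  | empty =>
    refine Submodule.subset_span ⟨fun _ => 0, by simp, by simp⟩
  | insert a s ha ih =>
    rw [Finset.prod_insert ha]
    have h1 := h a (Finset.mem_insert_self _ _)
    have h2 := ih (fun i hi => h i (Finset.mem_insert_of_mem hi))
    have h3 := Submodule.mul_mem_mul h1 h2
    rw [Submodule.span_mul_span] at h3
    refine Submodule.span_mono ?_ h3
    intro y hy
    obtain ⟨m, hm, z, ⟨g, hg, rfl⟩, rfl⟩ := Set.mem_mul.mp hy
    refine ⟨Function.update g a m, ?_, ?_⟩
    · intro i hi
      by_cases hia : i = a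
      · subst hia; simpa using hm
      · rw [Function.update_of_ne hia]
        exact hg i (by simpa [hia] using hi)
    · rw [Finset.prod_insert ha]
      simp only [Function.update_self]
      congr 1
      refine Finset.prod_congr rfl (fun i hi => ?_)
      rw [Function.update_of_ne]
      rintro rfl
      exact ha hi

/-- the block matrix -/
def blk {n δ : ℕ} (κ : Fin n → Fin (δ + 1)) {k : Type*} [CommRing k] (Θ : Fin n × Fin n → k) :
    Matrix (Fin n) (Fin n) k :=
  Matrix.of (fun v w => if κ v = κ w then Θ (v, w) else 0)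

lemma blk_generic_ne {n δ : ℕ} (κ : Fin n → Fin (δ + 1)) (k : Type*) [Field k] :
    (blk κ (fun p : Fin n × Fin n => (X p : MvPolynomial (Fin n × Fin n) k))).det ≠ 0 := by
  intro h
  have h2 := congrArg (eval (fun p : Fin n × Fin n => if p.1 = p.2 then (1 : k) else 0)) h
  rw [RingHom.map_det, map_zero] at h2
  have h3 : (RingHom.mapMatrix (eval (fun p : Fin n × Fin n => if p.1 = p.2 then (1 : k) else 0)))
      (blk κ (fun p : Fin n × Fin n => (X p : MvPolynomial (Fin n × Fin n) k))) = 1 := by
    ext v w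
    simp only [RingHom.mapMatrix_apply, Matrix.map_apply, blk, Matrix.of_apply, Matrix.one_apply]
    by_cases hvw : v = w
    · subst hvw; simp
    · by_cases hk : κ v = κ w <;> simp [hk, hvw]
  rw [h3, Matrix.det_one] at h2
  exact one_ne_zero h2

lemma blk_eval {n δ : ℕ} (κ : Fin n → Fin (δ + 1)) {k : Type*} [Field k]
    (Θ : Fin n × Fin n → k) :
    eval Θ (blk κ (fun p : Fin n × Fin n => (X p : MvPolynomial (Fin n × Fin n) k))).det
      = (blk κ Θ).det := by
  rw [RingHom.map_det]
  congr 1
  ext v w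
  simp only [RingHom.mapMatrix_apply, Matrix.map_apply, blk, Matrix.of_apply]
  by_cases hk : κ v = κ w <;> simp [hk]

lemma X_mem {n δ : ℕ} (κ : Fin n → Fin (δ + 1)) {k : Type*} [Field k]
    (Θ : Fin n × Fin n → k) (hdet : (blk κ Θ).det ≠ 0) (w : Fin n) :
    (X w : MvPolynomial (Fin n) k) ∈
      Submodule.span k {y | ∃ v, κ v = κ w ∧ y = thetaB κ Θ v} := by
  classical
  have hu : IsUnit (blk κ Θ).det := isUnit_iff_ne_zero.mpr hdet
  have hB := Matrix.nonsing_inv_mul (blk κ Θ) hu
  set B := (blk κ Θ)⁻¹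
  have hBe : ∀ u, ∑ v, B w v * blk κ Θ v u = if w = u then 1 else 0 := by
    intro u
    have := congrFun (congrFun hB w) u
    rwa [Matrix.mul_apply, Matrix.one_apply] at this
  have key : (X w : MvPolynomial (Fin n) k)
      = ∑ v ∈ univ.filter (fun v => κ v = κ w), B w v • thetaB κ Θ v := by
    have h1 : ∀ v ∈ univ.filter (fun v => κ v = κ w), B w v • thetaB κ Θ v
        = ∑ u ∈ univ.filter (fun u => κ u = κ w), C (B w v * blk κ Θ v u) * X u := by
      intro v hv
      have hv' : κ v = κ w := (Finset.mem_filter.mp hv).2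
      unfold thetaB
      rw [hv', Finset.smul_sum]
      refine Finset.sum_congr rfl (fun u hu' => ?_)
      have hu'' : κ u = κ w := (Finset.mem_filter.mp hu').2
      simp only [blk, Matrix.of_apply, hv', hu'', if_true]
      rw [MvPolynomial.smul_eq_C_mul, C_mul, mul_assoc]
    rw [Finset.sum_congr rfl h1, Finset.sum_comm]
    have h2 : ∀ u ∈ univ.filter (fun u => κ u = κ w),
        ∑ v ∈ univ.filter (fun v => κ v = κ w),
          (C (B w v * blk κ Θ v u) * X u : MvPolynomial (Fin n) k)
        = C (if w = u then 1 else 0) * X u := by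
      intro u hu'
      have hu'' : κ u = κ w := (Finset.mem_filter.mp hu').2
      rw [← Finset.sum_mul, ← map_sum, ← hBe u]
      congr 2
      rw [Finset.sum_filter]
      refine Finset.sum_congr rfl (fun v _ => ?_)
      by_cases hv : κ v = κ w
      · simp [hv]
      · simp only [hv, if_false]
        rw [blk, Matrix.of_apply, if_neg, mul_zero]
        rw [hu'']; exact hv
    rw [Finset.sum_congr rfl h2]
    rw [Finset.sum_eq_single w]
    · simp
    · intro b _ hb
      simp [Ne.symm hb]
    · intro hw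
      exact absurd (by simp) hw
  rw [key]
  refine Submodule.sum_mem _ (fun v hv => Submodule.smul_mem _ _ (Submodule.subset_span ⟨v, ?_, rfl⟩))
  exact (Finset.mem_filter.mp hv).2

lemma theta_mem {n δ : ℕ} (κ : Fin n → Fin (δ + 1)) {k : Type*} [Field k]
    (Θ : Fin n × Fin n → k) (v : Fin n) :
    thetaB κ Θ v ∈ Submodule.span k
      {y | ∃ w, κ w = κ v ∧ y = (X w : MvPolynomial (Fin n) k)} := by
  unfold thetaB
  refine Submodule.sum_mem _ (fun w hw => ?_)
  rw [← MvPolynomial.smul_eq_C_mul]
  exact Submodule.smul_mem _ _ (Submodule.subset_span ⟨w, (Finset.mem_filter.mp hw).2, rfl⟩)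

lemma two_smallest {n δ : ℕ} (κ : Fin n → Fin (δ + 1)) (i : Fin (δ + 1))
    (h : 2 ≤ (univ.filter (fun v => κ v = i)).card) :
    ∃ p : Fin 2 → Fin n, Function.Injective p ∧ ∀ a, κ (p a) = i ∧ crank κ (p a) < 2 := by
  classical
  set S := univ.filter (fun v => κ v = i) with hS
  have hne : S.Nonempty := Finset.card_pos.mp (by omega)
  set x0 := S.min' hne
  have hx0 : x0 ∈ S := S.min'_mem hne
  have hne1 : (S.erase x0).Nonempty := by
    rw [← Finset.card_pos, Finset.card_erase_of_mem hx0]; omega
  set x1 := (S.erase x0).min' hne1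
  have hx1 : x1 ∈ S.erase x0 := (S.erase x0).min'_mem hne1
  have hx1S : x1 ∈ S := Finset.mem_of_mem_erase hx1
  have hx10 : x1 ≠ x0 := Finset.ne_of_mem_erase hx1
  have hk0 : κ x0 = i := (Finset.mem_filter.mp hx0).2
  have hk1 : κ x1 = i := (Finset.mem_filter.mp hx1S).2
  have hc0 : crank κ x0 < 2 := by
    unfold crank
    have : univ.filter (fun w => κ w = κ x0 ∧ w < x0) = ∅ := by
      rw [Finset.filter_eq_empty_iff]
      rintro w _ ⟨hw1, hw2⟩
      have : w ∈ S := by rw [hS, Finset.mem_filter]; exact ⟨mem_univ _, hw1.trans hk0⟩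
      exact absurd (S.min'_le w this) (not_le.mpr hw2)
    rw [this]; simp
  have hc1 : crank κ x1 < 2 := by
    unfold crank
    have : univ.filter (fun w => κ w = κ x1 ∧ w < x1) ⊆ {x0} := by
      intro w hw
      obtain ⟨_, hw1, hw2⟩ := Finset.mem_filter.mp hw
      rw [Finset.mem_singleton]
      by_contra hne'
      have : w ∈ S.erase x0 := by
        rw [Finset.mem_erase, hS, Finset.mem_filter]; exact ⟨hne', mem_univ _, hw1.trans hk1⟩
      exact absurd ((S.erase x0).min'_le w this) (not_le.mpr hw2)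
    have := Finset.card_le_card this
    simp at this
    omega
  refine ⟨![x0, x1], ?_, ?_⟩
  · intro a b hab
    fin_cases a <;> fin_cases b <;> simp_all
  · intro a
    fin_cases a
    · exact ⟨hk0, hc0⟩
    · exact ⟨hk1, hc1⟩

/-- from a copy of the join we get a rainbow face of the shifted complex all of whose vertices
have two smaller vertices of the same colour -/
lemma contains_imp {n δ : ℕ} (κ : Fin n → Fin (δ + 1)) (Q : Set (Finset (Fin n)))
    (hQ : ∀ F ∈ Q, Set.InjOn κ (F : Set (Fin n))) (h : Contains3 δ Q) :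
    ∃ t : Fin (δ + 1) → Fin n, (∀ i, κ (t i) = i) ∧ (∀ i, 2 ≤ crank κ (t i)) ∧
      univ.image t ∈ Q := by
  classical
  obtain ⟨e, he, hall⟩ := h
  have hinj : ∀ s : Fin (δ + 1) → Fin 3, Function.Injective (fun i => κ (e (i, s i))) := by
    intro s i i' hii
    have h1 := hQ _ (hall s) (x₁ := e (i, s i)) (x₂ := e (i', s i')) (by simp) (by simp) hii
    have := he h1
    exact (Prod.ext_iff.mp this).1
  have hsurj : ∀ s : Fin (δ + 1) → Fin 3, Function.Surjective (fun i => κ (e (i, s i))) :=
    fun s => Finite.surjective_of_injective (hinj s)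
  -- the colour does not depend on the second coordinate
  have hcol : ∀ i a, κ (e (i, a)) = κ (e (i, 0)) := by
    intro i a
    obtain ⟨j, hj⟩ := hsurj (Function.update (fun _ => 0) i a) (κ (e (i, 0)))
    by_cases hji : j = i
    · subst hji
      simpa using hj
    · exfalso
      simp only [Function.update_of_ne hji] at hj
      exact hji (hinj (fun _ => 0) hj)
  -- inverse of the colour map
  let c : Fin (δ + 1) → Fin (δ + 1) := fun i => κ (e (i, 0))
  have hcb : Function.Bijective c := ⟨hinj (fun _ => 0), hsurj (fun _ => 0)⟩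
  obtain ⟨d, hd1, hd2⟩ := Function.bijective_iff_has_inverse.mp hcb
  -- argmax
  have hmax : ∀ i, ∃ a : Fin 3, ∀ b : Fin 3, e (i, b) ≤ e (i, a) := by
    intro i
    obtain ⟨a, -, ha⟩ := Finset.exists_max_image (univ : Finset (Fin 3)) (fun b => e (i, b))
      ⟨0, mem_univ _⟩
    exact ⟨a, fun b => ha b (mem_univ _)⟩
  choose s hs using hmax
  refine ⟨fun j => e (d j, s (d j)), ?_, ?_, ?_⟩
  · intro j
    rw [hcol]
    exact hd2 j
  · intro j
    unfold crank
    have hsub : (univ.erase (s (d j))).image (fun b => e (d j, b)) ⊆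
        univ.filter (fun w => κ w = κ (e (d j, s (d j))) ∧ w < e (d j, s (d j))) := by
      intro w hw
      obtain ⟨b, hb, rfl⟩ := Finset.mem_image.mp hw
      have hb' : b ≠ s (d j) := Finset.ne_of_mem_erase hb
      rw [Finset.mem_filter]
      refine ⟨mem_univ _, by rw [hcol, hcol (d j) (s (d j))], lt_of_le_of_ne (hs _ b) ?_⟩
      intro heq
      exact hb' (Prod.ext_iff.mp (he heq)).2
    have := Finset.card_le_card hsub
    rw [Finset.card_image_of_injective] at this
    · rw [Finset.card_erase_of_mem (mem_univ _)] at this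
      simpa using this
    · intro b b' hbb
      exact (Prod.ext_iff.mp (he hbb)).2
  · have := hall s
    convert this using 1
    ext x
    simp only [Finset.mem_image, mem_univ, true_and]
    constructor
    · rintro ⟨j, rfl⟩; exact ⟨d j, rfl⟩
    · rintro ⟨i, rfl⟩
      refine ⟨c i, ?_⟩
      rw [hd1 i]

lemma prod_image_theta {n δ : ℕ} (κ : Fin n → Fin (δ + 1)) {k : Type*} [Field k]
    (Θ : Fin n × Fin n → k) (t : Fin (δ + 1) → Fin n) (ht : ∀ i, κ (t i) = i) :
    ∏ v ∈ univ.image t, thetaB κ Θ v = ∏ i, thetaB κ Θ (t i) := by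
  classical
  rw [Finset.prod_image]
  intro i _ j _ hij
  have : κ (t i) = κ (t j) := by rw [hij]
  rwa [ht, ht] at this

lemma image_image {n δ : ℕ} (κ : Fin n → Fin (δ + 1)) (t : Fin (δ + 1) → Fin n)
    (ht : ∀ i, κ (t i) = i) : (univ.image t).image κ = univ := by
  classical
  ext i
  simp only [Finset.mem_image, mem_univ, true_and, iff_true]
  exact ⟨t i, ⟨i, rfl⟩, ht i⟩

lemma injOn_image {n δ : ℕ} (κ : Fin n → Fin (δ + 1)) (t : Fin (δ + 1) → Fin n)
    (ht : ∀ i, κ (t i) = i) : Set.InjOn κ ((univ.image t : Finset (Fin n)) : Set (Fin n)) := by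
  classical
  intro x hx y hy hxy
  simp only [Finset.coe_image, Finset.coe_univ, Set.image_univ, Set.mem_range] at hx hy
  obtain ⟨i, rfl⟩ := hx
  obtain ⟨j, rfl⟩ := hy
  rw [ht, ht] at hxy
  rw [hxy]

lemma lexLT_of {n δ : ℕ} (κ : Fin n → Fin (δ + 1)) (hadm : Adm2 κ) (G Fs : Finset (Fin n))
    (hF : ∀ x ∈ Fs, 2 ≤ crank κ x) (p : Fin n) (hp : p ∈ G) (hpc : crank κ p < 2) :
    LexLT G Fs := by
  classical
  have hne : G.Nonempty := ⟨p, hp⟩
  have hle : G.min' hne ≤ p := G.min'_le p hp
  have hc : crank κ (G.min' hne) < 2 := by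
    rcases lt_or_eq_of_le hle with h | h
    · exact hadm p _ h hpc
    · rw [h]; exact hpc
  refine ⟨G.min' hne, G.min'_mem hne, ?_, ?_⟩
  · intro h
    exact absurd (hF _ h) (by omega)
  · intro y hy
    constructor
    · intro h
      exact absurd (G.min'_le y h) (not_le.mpr hy)
    · intro h
      exact absurd (hF _ h) (by have := hadm _ _ hy hc; omega)

theorem bal (h0 : StBal0) : StBal := by
  classical
  intro k _ _ n δ K κ hK hbal hemb hadm
  by_cases hcl : ∀ i, 2 ≤ (univ.filter (fun v => κ v = i)).card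
  · have hp := fun i => two_smallest κ i (hcl i)
    choose p hpinj hpκ using hp
    let p' : Fin (δ + 1) × Fin 2 → Fin n := fun ij => p ij.1 ij.2
    have hp'inj : Function.Injective p' := by
      rintro ⟨i, a⟩ ⟨j, b⟩ hab
      have h1 : κ (p i a) = κ (p j b) := congrArg κ hab
      rw [(hpκ i a).1, (hpκ j b).1] at h1
      subst h1
      have hab' : a = b := hpinj i hab
      rw [hab']
    obtain ⟨F, hF0, hF⟩ := h0 n δ K κ hK hemb
    let ρ : (Fin (δ + 1) × Fin 2) × Fin n → Fin n × Fin n := fun q => (p' q.1, q.2)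
    have hρ : Function.Injective ρ := by
      rintro ⟨a, v⟩ ⟨b, w⟩ h
      have h1 := (Prod.ext_iff.mp h).1
      have h2 := (Prod.ext_iff.mp h).2
      simp only [ρ] at h1 h2
      rw [hp'inj h1, h2]
    let P1 : MvPolynomial (Fin n × Fin n) k := rename ρ (MvPolynomial.map (Int.castRingHom k) F)
    have hP1 : P1 ≠ 0 := by
      intro h
      have h1 : MvPolynomial.map (Int.castRingHom k) F = 0 :=
        (rename_injective ρ hρ) (by rw [map_zero]; exact h)
      exact hF0 ((MvPolynomial.map_injective (Int.castRingHom k) Int.cast_injective)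
        (by rw [map_zero]; exact h1))
    let P2 : MvPolynomial (Fin n × Fin n) k :=
      (blk κ (fun p : Fin n × Fin n => (X p : MvPolynomial (Fin n × Fin n) k))).det
    have hP2 : P2 ≠ 0 := blk_generic_ne κ k
    refine ⟨P1 * P2, mul_ne_zero hP1 hP2, ?_⟩
    intro Θ hΘ hcont
    rw [map_mul] at hΘ
    have hΘ1 : eval Θ P1 ≠ 0 := left_ne_zero_of_mul hΘ
    have hΘ2 : (blk κ Θ).det ≠ 0 := by
      have := right_ne_zero_of_mul hΘ
      rwa [blk_eval] at this
    let c : (Fin (δ + 1) × Fin 2) × Fin n → k := fun q => Θ (p' q.1, q.2)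
    have hc : aeval c F ≠ 0 := by
      have : eval Θ P1 = aeval c F := by
        simp only [P1]
        rw [eval_rename, aeval_def, eval_map]
        rfl
      rwa [this] at hΘ1
    have hFw := hF k c hc
    obtain ⟨t, ht1, ht2, ht3⟩ := contains_imp κ _ (fun F hF => hF.1) hcont
    refine ht3.2 ?_
    rw [prod_image_theta κ Θ t ht1]
    set T := Submodule.span k {y | ∃ G : Finset (Fin n), Set.InjOn κ (G : Set (Fin n)) ∧
        G.image κ = (univ.image t).image κ ∧ LexLT G (univ.image t) ∧
        y = Ideal.Quotient.mk (srI k K) (∏ v ∈ G, thetaB κ Θ v)} with hT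
    -- the preimage of `T`
    let T' : Submodule k (MvPolynomial (Fin n) k) :=
      T.comap (Ideal.Quotient.mkₐ k (srI k K)).toLinearMap
    have hmem : ∀ x, x ∈ T' ↔ Ideal.Quotient.mk (srI k K) x ∈ T := fun x => Iff.rfl
    rw [← hmem]
    -- step 1: products of thetas with some small vertex
    have step1 : ∀ (ij : Fin (δ + 1) × Fin 2) (v : Fin (δ + 1) → Fin n), (∀ i, κ (v i) = i) →
        (∏ i ∈ univ.erase ij.1, thetaB κ Θ (v i)) * thetaB κ Θ (p' ij) ∈ T' := by
      intro ij v hv
      let v' := Function.update v ij.1 (p' ij)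
      have hv' : ∀ i, κ (v' i) = i := by
        intro i
        by_cases hi : i = ij.1
        · subst hi
          simp only [v', Function.update_self, p']
          exact (hpκ _ _).1
        · simp only [v', Function.update_of_ne hi]; exact hv i
      have heq : (∏ i ∈ univ.erase ij.1, thetaB κ Θ (v i)) * thetaB κ Θ (p' ij)
          = ∏ v ∈ univ.image v', thetaB κ Θ v := by
        rw [prod_image_theta κ Θ v' hv', ← Finset.prod_erase_mul univ _ (mem_univ ij.1)]
        congr 1
        · refine Finset.prod_congr rfl (fun i hi => ?_)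
          simp only [v', Function.update_of_ne (Finset.ne_of_mem_erase hi)]
        · simp only [v', Function.update_self]
      rw [heq, hmem]
      refine Submodule.subset_span ⟨univ.image v', injOn_image κ v' hv', ?_, ?_, rfl⟩
      · rw [image_image κ v' hv', image_image κ t ht1]
      · refine lexLT_of κ hadm _ _ ?_ (p' ij) ?_ (hpκ _ _).2
        · intro x hx
          obtain ⟨i, _, rfl⟩ := Finset.mem_image.mp hx
          exact ht2 i
        · refine Finset.mem_image.mpr ⟨ij.1, mem_univ _, ?_⟩
          simp only [v', Function.update_self]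
    -- step 2: products of variables times theta
    have step2 : ∀ (ij : Fin (δ + 1) × Fin 2) (u : Fin (δ + 1) → Fin n), (∀ i, κ (u i) = i) →
        (∏ i ∈ univ.erase ij.1, X (u i)) * thetaB κ Θ (p' ij) ∈ T' := by
      intro ij u hu
      have h1 := prod_mem_span' (k := k) (univ.erase ij.1)
        (fun i => (X (u i) : MvPolynomial (Fin n) k))
        (fun i => {y | ∃ v, κ v = i ∧ y = thetaB κ Θ v})
        (fun i _ => by
          have := X_mem κ Θ hΘ2 (u i)
          rwa [hu i] at this)
      let T'' : Submodule k (MvPolynomial (Fin n) k) :=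
        T'.comap (LinearMap.mulRight k (thetaB κ Θ (p' ij)))
      have hmem'' : ∀ x, x ∈ T'' ↔ x * thetaB κ Θ (p' ij) ∈ T' := fun x => Iff.rfl
      rw [← hmem'']
      refine (Submodule.span_le.mpr ?_) h1
      rintro y ⟨g, hg, rfl⟩
      have hgv : ∀ i, ∃ v, κ v = i ∧ (i ∈ univ.erase ij.1 → g i = thetaB κ Θ v) := by
        intro i
        by_cases hi : i ∈ univ.erase ij.1
        · obtain ⟨v, hv1, hv2⟩ := hg i hi
          exact ⟨v, hv1, fun _ => hv2⟩
        · exact ⟨u i, hu i, fun h => absurd h hi⟩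
      choose v hv1 hv2 using hgv
      have : ∏ i ∈ univ.erase ij.1, g i = ∏ i ∈ univ.erase ij.1, thetaB κ Θ (v i) :=
        Finset.prod_congr rfl (fun i hi => hv2 i hi)
      rw [SetLike.mem_coe, hmem'', this]
      exact step1 ij v hv1
    -- step 3: rainbow monomials
    have step3 : ∀ w : Fin (δ + 1) → Fin n, (∀ i, κ (w i) = i) →
        (∏ i, X (w i) : MvPolynomial (Fin n) k) ∈ T' := by
      intro w hw
      obtain ⟨q, hq1, hq2⟩ := hFw w hw
      have hth : ∀ ij : Fin (δ + 1) × Fin 2,
          (∑ v ∈ univ.filter (fun v => κ v = ij.1), C (c (ij, v)) * X v : MvPolynomial (Fin n) k)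
            = thetaB κ Θ (p' ij) := by
        intro ij
        unfold thetaB
        have : κ (p' ij) = ij.1 := (hpκ _ _).1
        rw [this]
      have hsum : (∑ ij, q ij * (∑ v ∈ univ.filter (fun v => κ v = ij.1),
          C (c (ij, v)) * X v) : MvPolynomial (Fin n) k) ∈ T' := by
        refine Submodule.sum_mem _ (fun ij _ => ?_)
        rw [hth]
        let T'' : Submodule k (MvPolynomial (Fin n) k) :=
          T'.comap (LinearMap.mulRight k (thetaB κ Θ (p' ij)))
        have hmem'' : ∀ x, x ∈ T'' ↔ x * thetaB κ Θ (p' ij) ∈ T' := fun x => Iff.rfl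
        rw [← hmem'']
        refine (Submodule.span_le.mpr ?_) (hq1 ij)
        rintro y ⟨u, hu, rfl⟩
        rw [SetLike.mem_coe, hmem'']
        exact step2 ij u hu
      have hmk : Ideal.Quotient.mk (srI k K) (∏ i, X (w i)) = Ideal.Quotient.mk (srI k K)
          (∑ ij, q ij * (∑ v ∈ univ.filter (fun v => κ v = ij.1), C (c (ij, v)) * X v)) := by
        rw [Ideal.Quotient.eq]
        exact hq2
      rw [hmem, hmk, ← hmem]
      exact hsum
    -- step 4
    have h4 := prod_mem_span' (k := k) univ
      (fun i => thetaB κ Θ (t i))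
      (fun i => {y | ∃ w, κ w = i ∧ y = (X w : MvPolynomial (Fin n) k)})
      (fun i _ => by
        have := theta_mem κ Θ (t i)
        rwa [ht1 i] at this)
    refine (Submodule.span_le.mpr ?_) h4
    rintro y ⟨g, hg, rfl⟩
    choose w hw1 hw2 using fun i => hg i (mem_univ i)
    have : ∏ i, g i = ∏ i, X (w i) := Finset.prod_congr rfl (fun i _ => hw2 i)
    rw [SetLike.mem_coe, this]
    exact step3 w hw1
  · refine ⟨1, one_ne_zero, ?_⟩
    intro Θ _ hcont
    obtain ⟨t, ht1, ht2, ht3⟩ := contains_imp κ _ (fun F hF => hF.1) hcont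
    apply hcl
    intro i
    refine (ht2 i).trans ?_
    unfold crank
    refine Finset.card_le_card ?_
    intro w hw
    rw [Finset.mem_filter] at hw ⊢
    exact ⟨mem_univ _, hw.2.1.trans (ht1 i)⟩

end Pool.Agent.W636.KS
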